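import Mathlib
import Pool.Agent.H.MP_8481ed_ag.Grid

namespace Pool.Agent.Results.MP_8481ed_ag.NotStable

open MvPolynomial

/-- dimension of the space of forms of degree `d` in three variables lying in the `m i`-th power
of the homogeneous ideal of the point `p i`, for all `i` -/
noncomputable def h0 {k : Type} [Field k] {r : ℕ} (p : Fin r → Projectivization k (Fin 3 → k))
    (d : ℕ) (m : Fin r → ℕ) : ℕ :=
  Module.finrank k ↥(homogeneousSubmodule (Fin 3) k d ⊓
    ⨅ i, (vanishingIdeal k ((p i).submodule : Set (Fin 3 → k)) ^ m i).restrictScalars k)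

/-- `h0 > 0` and `h1 = h0 - chi > 0` -/
def Special {k : Type} [Field k] {r : ℕ} (p : Fin r → Projectivization k (Fin 3 → k))
    (d : ℕ) (m : Fin r → ℕ) : Prop :=
  0 < h0 p d m ∧ (((d + 2).choose 2 : ℕ) : ℤ) - ∑ i, (((m i + 1).choose 2 : ℕ) : ℤ) < h0 p d m

open Pool.Agent.H.MP_8481ed_ag in
theorem result (k : Type) [Field k] [IsAlgClosed k] :
    ∃ (r : ℕ) (p : Fin r → Projectivization k (Fin 3 → k)) (d : ℕ) (m : Fin r → ℕ),
      Function.Injective p ∧ Special p d m ∧ ¬ Special p (2 * d) (fun i => 2 * m i) := by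
  obtain ⟨a, ha⟩ : ∃ a : Fin 5 → k, Function.Injective a :=
    ⟨fun i => Infinite.natEmbedding k i, fun i j h => Fin.ext ((Infinite.natEmbedding k).injective h)⟩
  have hne : ∀ i j, pt a i j ≠ 0 := fun i j h => by simpa [pt] using congrFun h 2
  obtain ⟨e⟩ : Nonempty (Fin 16 ≃ Fin 4 × Fin 4) := ⟨(finProdFinEquiv (m := 4) (n := 4)).symm⟩
  refine ⟨16, fun n => Projectivization.mk k (pt a (e n).1 (e n).2) (hne _ _), 5, fun _ => 1,
    ?_, ?_, ?_⟩
  · intro n n' h
    rw [Projectivization.mk_eq_mk_iff'] at h
    obtain ⟨t, ht⟩ := h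
    have h2 : t = 1 := by simpa [pt] using congrFun ht 2
    rw [h2, one_smul] at ht
    have h0 := congrFun ht 0
    have h1 := congrFun ht 1
    simp only [pt, Matrix.cons_val_zero, Matrix.cons_val_one] at h0 h1
    exact e.injective (Prod.ext (Fin.castSucc_injective _ (ha h0)).symm
      (Fin.castSucc_injective _ (ha h1)).symm)
  · have h6 : 6 ≤ h0 (fun n => Projectivization.mk k (pt a (e n).1 (e n).2) (hne _ _)) 5
        (fun _ => 1) := by
      refine lower a ha _ inf_le_left fun F hF h => ⟨hF, ?_⟩
      rw [SetLike.mem_coe, Submodule.mem_iInf]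
      intro n
      rw [Submodule.restrictScalars_mem, pow_one]
      intro v hv
      rw [SetLike.mem_coe, Projectivization.submodule_mk, Submodule.mem_span_singleton] at hv
      obtain ⟨t, rfl⟩ := hv
      exact h _ _ t
    refine ⟨by omega, ?_⟩
    have h3 : (5 + 2).choose 2 = 21 := by decide
    simp only [h3, Finset.sum_const, Finset.card_univ, Fintype.card_fin]
    norm_num
    omega
  · rintro ⟨-, h⟩
    have h18 : h0 (fun n => Projectivization.mk k (pt a (e n).1 (e n).2) (hne _ _)) (2 * 5)
        (fun _ => 2 * 1) ≤ 18 := by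
      refine upper a ha _ inf_le_left fun F hF i j => ?_
      have h1 := (Submodule.mem_iInf _).mp hF.2 (e.symm (i, j))
      rw [Submodule.restrictScalars_mem] at h1
      refine sq_vanish _ _ ?_ F h1
      rw [SetLike.mem_coe, Projectivization.submodule_mk, Equiv.apply_symm_apply]
      exact Submodule.mem_span_singleton_self _
    have h3 : (2 * 5 + 2).choose 2 = 66 := by decide
    have h4 : (2 * 1 + 1).choose 2 = 3 := by decide
    simp only [h3, h4, Finset.sum_const, Finset.card_univ, Fintype.card_fin] at h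
    norm_num at h h18
    omega

end Pool.Agent.Results.MP_8481ed_ag.NotStable
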